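import Pool.Agent.W_1b8d5d_h52p.OctPa
import Pool.Agent.W_1b8d5d_h57p.TubeM
import Pool.Agent.W_1b8d5d_p.HsP

/-!
MP_1b8d5d_pr, Track P, D4 (proofs row 646): the two statements which pass between the sections: the inner edge on a stretch without
soft scale, and the record trick. (helper52)
-/

namespace Pool.Agent.W_1b8d5d_h52p

open MeasureTheory Set Pool.Agent.W_1b8d5d_p Pool.Agent.W_1b8d5d_h57p
open Pool.Agent.W_1b8d5d_h4p (Sf)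

/-- THE INNER EDGE (row 646, section 3): on a stretch without soft scale the displacements inside both inner edges of the flat window
have almost the cost of the cheapest displacement. -/
def InnerEP (F : Fm) (κ : ℝ) (Ds : Set Dr) (A0 : ℝ) : Prop :=
  ∃ (Ce Km : ℝ) (k0 k1 : ℕ), 0 ≤ Ce ∧ ∀ (ε : ℝ) (m : ℕ), 0 < ε → ε ≤ 1 → Km ≤ ε * 2 ^ m →
    ∃ (α : ℝ) (x0 : ℕ), ∀ d ∈ Ds, ∀ a b : ℕ, x0 ≤ a → (∀ z, a ≤ z → z < b → ¬ Sf F κ d z α) →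
    SlowU (fun x => EE F d (2 ^ x)) a b → ∀ y : ℕ, a + k0 + 2 ≤ y → y + m + k1 < b →
    ff A0 F d (y + m + k1) - ff A0 F d (y - 2 - k0) ≤ 1 → ∀ L : ℕ, 2 ^ (y - 2) ≤ L → L ≤ 2 ^ y → ∀ i : ℤ,
    -(vl A0 F d (2 ^ (y + m + k1)) - Ce * dl A0 F d (y - 2 - k0) (y + m + k1)) * L ≤ i - d.v * L →
    i - d.v * L ≤ (vr A0 F d (2 ^ (y + m + k1)) - Ce * dl A0 F d (y - 2 - k0) (y + m + k1)) * L →
    e F d L i ≤ Em F d L + ε * EE F d (2 ^ (y + m))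

/-- THE RECORD TRICK (row 646, (REC)): windows of duration `t₀ = (m₀ - 1) / 2` at the distance `m₀ - t₀`, a tube of half width `D`
around the line of slope `d.v + u`, whose windows are crossed by the cheapest displacement. -/
def RecP (F : Fm) (Ds : Set Dr) : Prop :=
  ∃ (Kx : ℝ) (ρ0 : ℕ), ∀ d ∈ Ds, ∀ ρ : ℕ, ρ0 ≤ ρ → Em F d (2 * ρ) = Em F d ρ ∨ ∃ m0 : ℕ, ρ < m0 ∧ m0 ≤ 2 * ρ ∧
    ∀ sg u D : ℝ, (sg = 1 ∨ sg = -1) → |u| ≤ 1 → 0 < D →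
      2 * D + Kx ≤ sg * ((d.v + u) * ((m0 - 1) / 2 : ℕ) - xs F d ((m0 - 1) / 2)) → ∀ (K : ℕ) (Z : ℤ), 1 ≤ K →
      HasT F (wv d (d.v + u)) D (K * (m0 - (m0 - 1) / 2) + (m0 - 1) / 2) Z →
      K * (Em F d (2 * ρ) - Em F d ρ) + Em F d ρ ≤
        ∫ η, XT F (wv d (d.v + u)) D η 0 (K * (m0 - (m0 - 1) / 2) + (m0 - 1) / 2) Z ∂(law F) + Cr F

end Pool.Agent.W_1b8d5d_h52p
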