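import Pool.Agent.W_1b8d5d_h52p.InnSd
import Pool.Agent.W_1b8d5d_h52p.OctPb

/-!
MP_1b8d5d_pr, Track P, D4 (proofs row 646, section 3): THE NUMBERS of the inner edge (text of helper33), as an interface, and the
inner edge `InnerEP` from them. (helper52)
-/

namespace Pool.Agent.W_1b8d5d_h52p

open MeasureTheory Set Pool.Agent.W_1b8d5d_h85 Pool.Agent.W_1b8d5d_p Pool.Agent.W_1b8d5d_h17p
open Pool.Agent.W_1b8d5d_h4p

/-- The time of the window `j`. -/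
def tn (L n' j : ℕ) : ℕ := (j + 1) * (L - n')

/-- The duration. -/
def NN (L n' K : ℕ) : ℕ := (K + 2) * L - (K + 1) * n'

/-- The numbers of one side `sg` of the inner edge: windows `n'`, end point `z`, references `h`, `h - mu`, cells `mu`, first cells
`cc j`, walls `Y j` (from the start) and `Y' j` (from the end). -/
structure NumX (F : Fm) (d : Dr) (sg A0 : ℝ) (z0 z1 : ℕ) (E : ℝ) (L n' K J : ℕ) (z h mu : ℤ) (cc Y Y' : ℕ → ℤ)
    (Ce c1 Bw cw rm Bn : ℝ) : Prop where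
  n1 : 8 ≤ n'
  n2 : 16 * n' ≤ L
  deep : Bn * E ≤ n'
  mu1 : 1 ≤ mu
  J1 : 1 ≤ J
  path : e F d (NN L n' K) z ≤ c1 * E
  refh : e F d n' h + Cr F ≤ Em F d L + rm * E
  refh' : e F d n' (h - mu) + Cr F ≤ Em F d L + rm * E
  wall : ∀ j ≤ K, Bw * E ≤ e F d (tn L n' j) (Y j)
  ref0 : ∀ j ≤ K, 0 ≤ sg * (Y j - xs F d (tn L n' j))
  wall' : ∀ j ≤ K, Bw * E ≤ e F d (NN L n' K - tn L n' j) (z - Y' j)
  ref0' : ∀ j ≤ K, 0 ≤ sg * (z - Y' j - xs F d (NN L n' K - tn L n' j))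
  win1 : ∀ j ≤ K, cc j + cw * E ≤ Y j
  win2 : ∀ j ≤ K, cc j + cw * E ≤ Y' j
  win3 : ∀ j ≤ K, Y j + cw * E < cc j + J * mu
  win4 : ∀ j ≤ K, Y' j + cw * E < cc j + J * mu
  loc1 : sg = 1 → (d.v + (vs A0 F d sg (2 ^ z1) - Ce * dl A0 F d z0 z1)) * L ≤
    (((z + (K + 1) * (h - mu)) / (K + 2) : ℤ) : ℝ)
  loc2 : sg = -1 → ((-((-(z + (K + 1) * h)) / (K + 2)) : ℤ) : ℝ) ≤
    (d.v - (vs A0 F d sg (2 ^ z1) - Ce * dl A0 F d z0 z1)) * L

/-- The numbers. -/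
def NumXP (F : Fm) (Ds : Set Dr) (A0 A1 : ℝ) : Prop :=
  ∃ (c1 : ℝ) (kk : ℕ), 1 ≤ c1 ∧ ∀ k : ℕ, kk ≤ k → ∃ Ce : ℝ, 8 ≤ Ce ∧ ∀ m K : ℕ, K + 2 = 2 ^ m → ∀ Bw cw rm Bn : ℝ,
    0 < Bw → 0 < cw → 0 < rm → 0 < Bn → ∃ J x0 : ℕ, ∀ d ∈ Ds, ∀ y : ℕ, x0 ≤ y → ∀ k1 : ℕ, 3 ≤ k1 →
    FW F d A0 A1 k (y - 2 - k) (y + m + k1) → 2 * (Ce * dl A0 F d (y - 2 - k) (y + m + k1)) ≤ vA A0 F d (2 ^ (y + m + k1)) →
    ∀ sg : ℝ, sg = 1 ∨ sg = -1 → ∀ L : ℕ, 2 ^ (y - 2) ≤ L → L ≤ 2 ^ y → ∃ (n' : ℕ) (z h mu : ℤ) (cc Y Y' : ℕ → ℤ),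
      NumX F d sg A0 (y - 2 - k) (y + m + k1) (EE F d (2 ^ (y + m))) L n' K J z h mu cc Y Y' Ce c1 Bw cw rm Bn

variable {F : Fm} {κ K0 : ℝ} {Ds : Set Dr} {A0 A1 : ℝ}

theorem tw_nat {L n' j : ℕ} (h : n' ≤ L) : (tw L n' j).toNat = tn L n' j := by
  unfold tw tn
  have h1 : ((j : ℤ) + 1) * ((L : ℤ) - n') = (((j + 1) * (L - n') : ℕ) : ℤ) := by
    push_cast [Nat.cast_sub h]
    ring
  rw [h1]
  exact Int.toNat_natCast _

theorem nw_nat {L n' K j : ℕ} (h : n' ≤ L) : ((Nw L n' K : ℤ) - tw L n' j).toNat = NN L n' K - tn L n' j := by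
  have h1 : tw L n' j = ((tn L n' j : ℕ) : ℤ) := by
    unfold tw tn
    push_cast [Nat.cast_sub h]
    ring
  rw [h1]
  show (((NN L n' K : ℕ) : ℤ) - ((tn L n' j : ℕ) : ℤ)).toNat = NN L n' K - tn L n' j
  omega

/-- **THE INNER EDGE.** -/
theorem innerP {c0' C0' : ℝ} (hL : LawH F c0' C0') (h : Dirs F κ K0 Ds) (hG : Grow F Ds) (hA0 : 0 < A0) (h01 : A0 < A1)
    (hNum : NumXP F Ds A0 A1) : InnerEP F κ Ds A0 := by
  have hA1 : 0 < A1 := hA0.trans h01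
  obtain ⟨c1, kk, hc1, hnum⟩ := hNum
  obtain ⟨kj, hkj⟩ := exists_lev hA0 hA1
  obtain ⟨k, hk⟩ : ∃ k, k = max kk kj := ⟨_, rfl⟩
  obtain ⟨Ce, hCe, hnum⟩ := hnum k (by rw [hk]; exact le_max_left _ _)
  refine ⟨Ce, 8 * (c1 + 1), k, 3, by linarith, fun ε m hε hε1 hm => ?_⟩
  have hm1 : 1 ≤ m := by
    rcases Nat.eq_zero_or_pos m with h1 | h1
    · exfalso
      rw [h1, pow_zero, mul_one] at hm
      linarith
    · exact h1
  obtain ⟨Kk, hKk⟩ : ∃ Kk, Kk + 2 = 2 ^ m := by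
    have h1 : 2 ^ 1 ≤ 2 ^ m := Nat.pow_le_pow_right (by norm_num) hm1
    exact ⟨2 ^ m - 2, by omega⟩
  have hKr : ((Kk : ℝ) + 2) = 2 ^ m := by exact_mod_cast hKk
  obtain ⟨B, hB⟩ : ∃ B : ℝ, B = c1 + 4 + (Kk + 1) * (1 + ε / 8 + ε / 8) + (Kk + 2) * (ε / 8) := ⟨_, rfl⟩
  have hBp : 0 < B := by rw [hB]; positivity
  have hb : 0 < F.b := F.a0.trans_le F.ab
  have hM : (0 : ℝ) < F.co.M := by exact_mod_cast F.co.M_pos
  -- κ is positive if there is a direction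
  rcases Ds.eq_empty_or_nonempty with hDs | ⟨d0, hd0⟩
  · refine ⟨0, 0, fun d hd => ?_⟩
    rw [hDs] at hd
    exact absurd hd (Set.notMem_empty d)
  have hκ : 0 < κ := (h.adm d0 hd0).κ0
  obtain ⟨J, x1, hnum⟩ := hnum m Kk hKk (c1 + 10) ((c1 + 6) / (κ * F.co.M)) (ε / 8) ((B + 2) / κ) (by linarith)
    (by positivity) (by positivity) (by positivity)
  obtain ⟨p, hp⟩ : ∃ p : ℝ, p = 1 / (2 * (15 * ((Kk + 1) * ((J + 1) * (J + 1))) : ℕ)) := ⟨_, rfl⟩
  have hcp : (0 : ℝ) < ((15 * ((Kk + 1) * ((J + 1) * (J + 1))) : ℕ) : ℝ) := by positivity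
  have hp0 : 0 < p := by rw [hp]; positivity
  have hcard : ((15 * ((Kk + 1) * ((J + 1) * (J + 1))) : ℕ) : ℝ) * p < 1 := by
    rw [hp, mul_one_div, div_lt_one (by positivity)]
    linarith
  obtain ⟨α, hα, hPb⟩ := pb_exists hL (p := p) (q := ε / 8) (qe := ε / 8) hp0 (by positivity) (by positivity)
    (max c1 2) B (c1 + 10)
  obtain ⟨n2, hn2⟩ := hG (16 * C17 F.co F.b + 6 * (Kk + 1) * C17 F.co F.b + 6 * C17 F.co F.b * (8 / ε))
  refine ⟨α, max x1 n2, fun d hd a b ha hNS hslow y hy hb' hf L hL1 hL2 i hi1 hi2 => ?_⟩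
  have ha1 : x1 ≤ a := (le_max_left _ _).trans ha
  have ha2 : n2 ≤ a := (le_max_right _ _).trans ha
  have hadm := h.adm d hd
  have htch := h.touch d hd
  have W : FW F d A0 A1 k (y - 2 - k) (y + m + 3) :=
    fw_of hslow (hkj k (by rw [hk]; exact le_max_right _ _)) (by omega) (by omega) (by omega) (by omega)
  have hLp : (0 : ℝ) < L := by
    have : 0 < L := lt_of_lt_of_le (by positivity) hL1
    exact_mod_cast this
  have hdl : 2 * (Ce * dl A0 F d (y - 2 - k) (y + m + 3)) ≤ vA A0 F d (2 ^ (y + m + 3)) := by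
    have h1 := hi1.trans hi2
    have h2 := le_of_mul_le_mul_right h1 hLp
    unfold vA
    linarith
  have hP := hPb κ d hadm htch (y + m) (hNS (y + m) (by omega) (by omega))
  obtain ⟨E, hE⟩ : ∃ E, E = EE F d (2 ^ (y + m)) := ⟨_, rfl⟩
  have hEp : 0 < E := by rw [hE]; exact EE_pos F d _
  have hC17 : 0 ≤ C17 F.co F.b := hb.le.trans (C17_pos hb)
  have hEbig : 16 * C17 F.co F.b + 6 * (Kk + 1) * C17 F.co F.b + 6 * C17 F.co F.b * (8 / ε) ≤ E := by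
    rw [hE]
    refine hn2 d hd _ ?_
    have h1 : y + m < 2 ^ (y + m) := Nat.lt_two_pow_self
    omega
  have g1 : 0 ≤ 6 * (Kk + 1) * C17 F.co F.b := by positivity
  have g2 : 0 ≤ 6 * C17 F.co F.b * (8 / ε) := by positivity
  have hLx : L ≤ 2 ^ (y + m) := hL2.trans (Nat.pow_le_pow_right (by norm_num) (by omega))
  have hside : ∀ sg : ℝ, sg = 1 ∨ sg = -1 → ∃ i, e F d L i ≤ Em F d L + ε * EE F d (2 ^ (y + m)) ∧
      (sg = 1 → (d.v + (vr A0 F d (2 ^ (y + m + 3)) - Ce * dl A0 F d (y - 2 - k) (y + m + 3))) * L ≤ i) ∧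
      (sg = -1 → (i : ℝ) ≤ (d.v - (vl A0 F d (2 ^ (y + m + 3)) - Ce * dl A0 F d (y - 2 - k) (y + m + 3))) * L) := by
    intro sg hsg
    obtain ⟨n', z, hh, mu, cc, Y, Y', N⟩ := hnum d hd y (by omega) 3 le_rfl W hdl sg hsg L hL1 hL2
    have hn'L : n' ≤ L := by have := N.n2; omega
    have hn8 := N.n1
    have hNN : Nw L n' Kk ≤ 2 ^ (y + m) := by
      have h1 : Nw L n' Kk ≤ (Kk + 2) * L := Nat.sub_le _ _
      rw [hKk] at h1
      refine h1.trans ?_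
      rw [pow_add, mul_comm]
      exact Nat.mul_le_mul_right _ hL2
    obtain ⟨ii, h1, h2, h3⟩ := side52 hadm htch hP hp0.le (by positivity) (by linarith) le_rfl (by positivity) le_rfl hε1 hc1
      (le_max_left _ _) (le_max_right _ _) le_rfl (L := L) (n' := n') (K := Kk) (J := J) (by omega) N.n2 hNN hLx hcard
      (z := z) (h := hh) (μ := mu) (cc := cc) (Y := Y) (Y' := Y') N.mu1
      (by
        have h1 := mul_le_mul_of_nonneg_left N.deep hκ.le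
        have h2 : κ * ((B + 2) / κ * EE F d (2 ^ (y + m))) = (B + 2) * EE F d (2 ^ (y + m)) := by
          field_simp
        rw [h2] at h1
        exact h1)
      N.path N.refh N.refh'
      (fun j hj => by rw [tw_nat hn'L]; exact N.wall j hj)
      (fun j hj => by rw [nw_nat hn'L]; exact N.wall' j hj)
      (by rw [← hE]; linarith) (by rw [← hE]; linarith)
      (by
        rw [← hE]
        have h1 : 6 * C17 F.co F.b * (8 / ε) ≤ E := by linarith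
        have h2 := mul_le_mul_of_nonneg_left h1 (show 0 ≤ ε / 8 by positivity)
        have h3 : ε / 8 * (6 * C17 F.co F.b * (8 / ε)) = 6 * C17 F.co F.b := by
          field_simp
        linarith)
      (by rw [hKr]; linarith) (by rw [hB])
      (fun j hj => by
        rw [tw_nat hn'L, nw_nat hn'L]
        have w1 := N.win1 j hj
        have w2 := N.win2 j hj
        have w3 := N.win3 j hj
        have w4 := N.win4 j hj
        have r0 := N.ref0 j hj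
        have r1 := N.ref0' j hj
        rcases hsg with rfl | rfl
        · left
          rw [one_mul] at r0 r1
          have r0' : (0 : ℝ) ≤ ((Y j - xs F d (tn L n' j) : ℤ) : ℝ) := by push_cast; exact r0
          have r1' : (0 : ℝ) ≤ ((z - Y' j - xs F d (NN L n' Kk - tn L n' j) : ℤ) : ℝ) := by push_cast; exact r1
          have r0'' := Int.cast_nonneg_iff.1 r0'
          have r1'' := Int.cast_nonneg_iff.1 r1'
          exact ⟨r0'', by linarith, by linarith, by linarith⟩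
        · right
          have r0' : (0 : ℝ) ≤ ((-(Y j - xs F d (tn L n' j)) : ℤ) : ℝ) := by push_cast; linarith
          have r1' : (0 : ℝ) ≤ ((-(z - Y' j - xs F d (NN L n' Kk - tn L n' j)) : ℤ) : ℝ) := by push_cast; linarith
          have r0'' := Int.cast_nonneg_iff.1 r0'
          have r1'' := Int.cast_nonneg_iff.1 r1'
          exact ⟨by linarith, by linarith, by linarith, by linarith⟩)
      (i₁ := (z + (Kk + 1) * (hh - mu)) / (Kk + 2)) (i₂ := -((-(z + (Kk + 1) * hh)) / (Kk + 2)))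
      (Int.mul_ediv_self_le (by positivity))
      (by
        have h1 := Int.mul_ediv_self_le (x := -(z + (Kk + 1) * hh)) (k := (Kk : ℤ) + 2) (by positivity)
        linarith)
    refine ⟨ii, h3, fun h4 => ?_, fun h4 => ?_⟩
    · have h5 := N.loc1 h4
      rw [h4, vs_one] at h5
      have h6 : ((((z + (Kk + 1) * (hh - mu)) / (Kk + 2) : ℤ)) : ℝ) ≤ ii := by exact_mod_cast h1
      exact h5.trans h6
    · have h5 := N.loc2 h4
      rw [h4, vs_neg] at h5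
      have h6 : (ii : ℝ) ≤ (((-((-(z + (Kk + 1) * hh)) / (Kk + 2)) : ℤ)) : ℝ) := by exact_mod_cast h2
      exact h6.trans h5
  obtain ⟨iR, hR1, hR2, -⟩ := hside 1 (Or.inl rfl)
  obtain ⟨iL, hL1', -, hL2'⟩ := hside (-1) (Or.inr rfl)
  have hR3 := hR2 rfl
  have hL3 := hL2' rfl
  refine between52 (by
    have : 0 < L := lt_of_lt_of_le (by positivity) hL1
    omega) hL1' hR1 ?_ ?_
  · have h1 : (iL : ℝ) ≤ i := by linarith
    exact_mod_cast h1
  · have h1 : (i : ℝ) ≤ iR := by linarith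
    exact_mod_cast h1

end Pool.Agent.W_1b8d5d_h52p
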