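import Pool.Agent.W_1b8d5d_h4p.NSz

/-!
MP_1b8d5d_pr, Track P, D4 (proofs row 646, section 3): the probabilities at one octave which is not soft, in the form of the assembly
of the inner edge. (helper52)
-/

namespace Pool.Agent.W_1b8d5d_h52p

open MeasureTheory Set Pool.Agent.W_1b8d5d_p Pool.Agent.W_1b8d5d_h4p

variable {F : Fm} {c0 C0 : ℝ}

/-- The probabilities at the octave `x`: lucks, references, walls, pieces. -/
structure Pb (F : Fm) (d : Dr) (x : ℕ) (p q qe A B Bw : ℝ) : Prop where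
  luck : ∀ m : ℕ, 1 ≤ m → m ≤ 2 ^ x → (law F).real {η | EE F d (2 ^ x) ≤ VV F d η 0 m} ≤ p
  ref : ∀ m : ℕ, 1 ≤ m → m ≤ 2 ^ x → ∀ y : ℤ, e F d m y ≤ A * EE F d (2 ^ x) →
    (law F).real {η | e F d m y + q * EE F d (2 ^ x) ≤ X F d η 0 m y} ≤ p
  wall : ∀ m : ℕ, 1 ≤ m → m ≤ 2 ^ x → ∀ y : ℤ, Bw * EE F d (2 ^ x) ≤ e F d m y →
    (law F).real {η | X F d η 0 m y ≤ (Bw - 1) * EE F d (2 ^ x)} ≤ p
  piece : ∀ m : ℕ, 1 ≤ m → m ≤ 2 ^ x → ∀ y : ℤ,
    (law F).real {η | X F d η 0 m y < min (e F d m y) (B * EE F d (2 ^ x)) - qe * EE F d (2 ^ x)} ≤ p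

theorem pb_exists (hL : LawH F c0 C0) {p q qe : ℝ} (hp : 0 < p) (hq : 0 < q) (hqe : 0 < qe) (A B Bw : ℝ) :
    ∃ α : ℝ, 0 ≤ α ∧ ∀ (κ : ℝ) (d : Dr), Adm F κ d → Touch F d → ∀ x : ℕ, ¬ Sf F κ d x α →
      Pb F d x p q qe A B Bw := by
  obtain ⟨α1, hα1, h1⟩ := ns1 F hp 1
  obtain ⟨α2, hα2, h2⟩ := ns2 hL hp Bw 1
  obtain ⟨α3, hα3, h3⟩ := ns2 hL hp (B + 1) 1
  obtain ⟨α4, hα4, h4⟩ := exists_level (max A (max (B + 1) (max (1 / p) (max (1 / q) (1 / qe)))))
  have g1 : A ≤ (2 : ℝ) ^ α4 := (le_max_left _ _).trans h4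
  have g' : max (B + 1) (max (1 / p) (max (1 / q) (1 / qe))) ≤ (2 : ℝ) ^ α4 := (le_max_right _ _).trans h4
  have g2 : B + 1 ≤ (2 : ℝ) ^ α4 := (le_max_left _ _).trans g'
  have g'' : max (1 / p) (max (1 / q) (1 / qe)) ≤ (2 : ℝ) ^ α4 := (le_max_right _ _).trans g'
  have g3 := neg_level hp ((le_max_left _ _).trans g'')
  have g4 := neg_level hq ((le_max_left _ _).trans ((le_max_right _ _).trans g''))
  have g5 := neg_level hqe ((le_max_right _ _).trans ((le_max_right _ _).trans g''))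
  refine ⟨max α1 (max α2 (max α3 α4)), hα1.trans (le_max_left _ _), fun κ d hd ht x hS => ?_⟩
  have hS1 : ¬ Sf F κ d x α1 := fun h => hS (h.mono (le_max_left _ _))
  have hS2 : ¬ Sf F κ d x α2 := fun h => hS (h.mono ((le_max_left _ _).trans (le_max_right _ _)))
  have hS3 : ¬ Sf F κ d x α3 := fun h => hS (h.mono ((le_max_left _ _).trans ((le_max_right _ _).trans (le_max_right _ _))))
  have hS4 : ¬ Sf F κ d x α4 := fun h => hS (h.mono ((le_max_right _ _).trans ((le_max_right _ _).trans (le_max_right _ _))))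
  have hE := EE_pos F d (2 ^ x)
  have hlen : ∀ m : ℕ, m ≤ 2 ^ x → (m : ℝ) ≤ (2 : ℝ) ^ ((x : ℝ) + α4) := by
    intro m hm
    have k1 : (m : ℝ) ≤ (2 : ℝ) ^ x := by exact_mod_cast hm
    have k2 : (2 : ℝ) ^ (x : ℝ) ≤ (2 : ℝ) ^ ((x : ℝ) + α4) := Real.rpow_le_rpow_of_exponent_le one_le_two (by linarith)
    rw [Real.rpow_natCast] at k2
    linarith
  have hconc : ∀ m : ℕ, 1 ≤ m → m ≤ 2 ^ x → ∀ y : ℤ, e F d m y ≤ (2 : ℝ) ^ α4 * EE F d (2 ^ x) → ∀ s : ℝ,
      (2 : ℝ) ^ (-α4) * EE F d (2 ^ x) ≤ s → (law F).real {η | s ≤ |X F d η 0 m y - e F d m y|} ≤ p := by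
    intro m hm hmx y he s hs
    have k1 := conc_of_not_Sf hS4 (hlen m hmx) (lk_X hd hm y) (by rw [int_negX]; linarith)
    refine (measureReal_mono (fun η hη => ?_) (measure_ne_top _ _)).trans (k1.le.trans g3)
    rw [Set.mem_ofPred_eq] at hη ⊢
    rw [int_negX]
    refine hs.trans (hη.trans (le_of_eq ?_))
    show |X F d η 0 m y - e F d m y| = |-X F d η 0 m y - -e F d m y|
    rw [← abs_neg]
    congr 1
    ring
  refine ⟨fun m hm hmx => h1 κ d hd x hS1 ht m hm (by rw [one_mul]; exact hmx), fun m hm hmx y he => ?_,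
    fun m hm hmx y he => h2 κ d hd ht x hS2 m hm (by rw [one_mul]; exact hmx) y he, fun m hm hmx y => ?_⟩
  · refine (measureReal_mono (fun η hη => ?_) (measure_ne_top _ _)).trans (hconc m hm hmx y
      (he.trans (mul_le_mul_of_nonneg_right g1 hE.le)) (q * EE F d (2 ^ x)) (mul_le_mul_of_nonneg_right g4 hE.le))
    rw [Set.mem_ofPred_eq] at hη ⊢
    refine le_trans ?_ (le_abs_self _)
    linarith
  · rcases le_or_gt (e F d m y) ((B + 1) * EE F d (2 ^ x)) with he | he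
    · refine (measureReal_mono (fun η hη => ?_) (measure_ne_top _ _)).trans (hconc m hm hmx y
        (he.trans (mul_le_mul_of_nonneg_right g2 hE.le)) (qe * EE F d (2 ^ x)) (mul_le_mul_of_nonneg_right g5 hE.le))
      rw [Set.mem_ofPred_eq] at hη ⊢
      have k1 := min_le_left (e F d m y) (B * EE F d (2 ^ x))
      refine le_trans ?_ (neg_le_abs _)
      linarith
    · refine (measureReal_mono (fun η hη => ?_) (measure_ne_top _ _)).trans
        (h3 κ d hd ht x hS3 m hm (by rw [one_mul]; exact hmx) y he.le)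
      rw [Set.mem_ofPred_eq] at hη ⊢
      have k1 := min_le_right (e F d m y) (B * EE F d (2 ^ x))
      have k2 : 0 < qe * EE F d (2 ^ x) := by positivity
      have e1 : (B + 1 - 1) * EE F d (2 ^ x) = B * EE F d (2 ^ x) := by ring
      rw [e1]
      linarith

end Pool.Agent.W_1b8d5d_h52p
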