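import Pool.Agent.W_1b8d5d_h52p.InnPr
import Pool.Agent.W_1b8d5d_h52p.OctP
import Pool.Agent.W_1b8d5d_h17p.InnX17

/-!
MP_1b8d5d_pr, Track P, D4 (proofs row 646, section 3): one side of the inner edge, from the numbers and the probabilities, and the
displacements between the two sides. (helper52)
-/

namespace Pool.Agent.W_1b8d5d_h52p

open MeasureTheory Set Pool.Agent.W_1b8d5d_h85 Pool.Agent.W_1b8d5d_p Pool.Agent.W_1b8d5d_h17p

variable {F : Fm} {κ K0 : ℝ} {Ds : Set Dr} {d : Dr}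

/-- **ONE SIDE OF THE INNER EDGE.** -/
theorem side52 (hd : Adm F κ d) (ht : Touch F d) {x : ℕ} {p q rm B c1 Bw A ε : ℝ} (hP : Pb F d x p q q A B Bw)
    (hp : 0 ≤ p) (hq0 : 0 ≤ q) (hq1 : q ≤ 1) (hqε : q ≤ ε / 8) (hrm0 : 0 ≤ rm) (hrm : rm ≤ ε / 8) (hε1 : ε ≤ 1) (hc1 : 1 ≤ c1)
    (hA1 : c1 ≤ A) (hA2 : 2 ≤ A) (hBw : c1 + 10 ≤ Bw) {L n' K J : ℕ} (hn1 : 1 ≤ n') (hn : 16 * n' ≤ L) (hNN : Nw L n' K ≤ 2 ^ x)
    (hL : L ≤ 2 ^ x) (hcard : (15 * ((K + 1) * ((J + 1) * (J + 1))) : ℕ) * p < 1) {z h μ : ℤ} {cc Y Y' : ℕ → ℤ} (hμ : 1 ≤ μ)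
    (hdeep : (B + 2) * EE F d (2 ^ x) ≤ κ * n') (hpath : e F d (Nw L n' K) z ≤ c1 * EE F d (2 ^ x))
    (hr1 : e F d n' h + Cr F ≤ Em F d L + rm * EE F d (2 ^ x))
    (hr2 : e F d n' (h - μ) + Cr F ≤ Em F d L + rm * EE F d (2 ^ x))
    (hw : ∀ j ≤ K, Bw * EE F d (2 ^ x) ≤ e F d (tw L n' j).toNat (Y j))
    (hw' : ∀ j ≤ K, Bw * EE F d (2 ^ x) ≤ e F d (Nw L n' K - tw L n' j).toNat (z - Y' j))
    (hC : 16 * C17 F.co F.b ≤ EE F d (2 ^ x)) (hC2 : 6 * (K + 1) * C17 F.co F.b ≤ EE F d (2 ^ x))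
    (hC3 : 6 * C17 F.co F.b ≤ ε / 8 * EE F d (2 ^ x)) (hK : 8 * (c1 + 1) ≤ ε * (K + 2))
    (hB : c1 + 4 + (K + 1) * (1 + rm + q) + (K + 2) * q ≤ B)
    (hs : ∀ j ≤ K, (0 ≤ Y j - xs F d (tw L n' j).toNat ∧ Y' j + xs F d (Nw L n' K - tw L n' j).toNat ≤ z ∧
        (cc j : ℝ) ≤ Y' j - (c1 + 6) / (κ * F.co.M) * EE F d (2 ^ x) ∧
        (Y j : ℝ) + (c1 + 6) / (κ * F.co.M) * EE F d (2 ^ x) < cc j + J * μ) ∨
      (Y j - xs F d (tw L n' j).toNat ≤ 0 ∧ z ≤ Y' j + xs F d (Nw L n' K - tw L n' j).toNat ∧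
        (cc j : ℝ) ≤ Y j - (c1 + 6) / (κ * F.co.M) * EE F d (2 ^ x) ∧
        (Y' j : ℝ) + (c1 + 6) / (κ * F.co.M) * EE F d (2 ^ x) < cc j + J * μ))
    {i₁ i₂ : ℤ} (h1 : (K + 2) * i₁ ≤ z + (K + 1) * (h - μ)) (h2 : z + (K + 1) * h ≤ (K + 2) * i₂) :
    ∃ i, i₁ ≤ i ∧ i ≤ i₂ ∧ e F d L i ≤ Em F d L + ε * EE F d (2 ^ x) := by
  obtain ⟨E, hE⟩ : ∃ E, E = EE F d (2 ^ x) := ⟨_, rfl⟩
  have hEp : 0 < E := by rw [hE]; exact EE_pos F d _
  have hL1 : 1 ≤ L := by omega
  have hκ := hd.κ0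
  have hM : (0 : ℝ) < F.co.M := by exact_mod_cast F.co.M_pos
  have hκM : 0 < κ * F.co.M := mul_pos hκ hM
  have hCp : 0 < Cr F := Cr_pos F
  have hb : 0 < F.b := F.a0.trans_le F.ab
  have hC17 : 0 ≤ C17 F.co F.b := hb.le.trans (C17_pos hb)
  have hx1 : ∀ m : ℕ, 1 ≤ m → m ≤ 2 ^ x → e F d m (xs F d m) ≤ E := by
    intro m _ hm
    have g1 := e_xs_le hd m
    have g2 := le_EE F d hm
    rw [← hE] at g2
    linarith
  have hEmL : Em F d L ≤ E := by
    rw [hE]
    exact (Em_le_EE hd L).trans (EE_mono F d hL)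
  have htw : ∀ j ≤ K, 1 ≤ (tw L n' j).toNat ∧ (tw L n' j).toNat ≤ 2 ^ x ∧ 1 ≤ (Nw L n' K - tw L n' j).toNat ∧
      (Nw L n' K - tw L n' j).toNat ≤ 2 ^ x := by
    intro j hj
    have g1 := tw_pos (L := L) (n' := n') (by omega) j
    have g2 := tw_lt (L := L) (n' := n') (K := K) (by omega) hj
    have g3 : ((Nw L n' K : ℕ) : ℤ) ≤ ((2 ^ x : ℕ) : ℤ) := by exact_mod_cast hNN
    refine ⟨by omega, by omega, by omega, by omega⟩
  have hNw1 : 1 ≤ Nw L n' K := by
    have g1 := tw_pos (L := L) (n' := n') (by omega) 0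
    have g2 := tw_lt (L := L) (n' := n') (K := K) (by omega) (Nat.zero_le K)
    omega
  have hcw : ((c1 + 1) * E + 16 * C17 F.co F.b + 2 * (2 * E)) / (κ * F.co.M) ≤ (c1 + 6) / (κ * F.co.M) * E := by
    rw [div_mul_eq_mul_div]
    refine div_le_div_of_nonneg_right ?_ hκM.le
    rw [← hE] at hC
    linarith
  have mono := fun (S T : Set Env) (h : S ⊆ T) => measureReal_mono (μ := law F) h (measure_ne_top _ T)
  have key := inner17 hd ht (L := L) (n' := n') (K := K) (J := J) hn1 (by omega) (z := z) (cc := cc) (h := h) (μ := μ) hμ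
    (a1 := (c1 + 1) * E) (r := Em F d L - Cr F + (rm + q) * E) (q := q * E) (B := B * E) (l := 2 * E) (B1 := (Bw - 1) * E)
    (p := p) (by positivity) (by rw [hE]; linarith) hp hcard (by rw [← hE] at hC; nlinarith)
    (Y := Y) (Y' := Y') (k₀ := fun j => Y j - xs F d (tw L n' j).toNat)
    (e' := fun j => Y' j + xs F d (Nw L n' K - tw L n' j).toNat)
    (by
      refine (mono _ _ fun η hη => ?_).trans (hP.ref (Nw L n' K) hNw1 hNN z (hpath.trans (mul_le_mul_of_nonneg_right hA1 (by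
        rw [← hE]; exact hEp.le))))
      rw [Set.mem_ofPred_eq] at hη ⊢
      rw [← hE] at hpath ⊢
      have g1 : q * E ≤ 1 * E := mul_le_mul_of_nonneg_right hq1 hEp.le
      linarith)
    (by
      intro m hm hmN
      refine (mono _ _ fun η hη => ?_).trans (hP.luck m hm (hmN.trans hNN))
      rw [Set.mem_ofPred_eq] at hη ⊢
      rw [← hE]
      linarith)
    (by
      intro j hj
      have g := hP.wall _ (htw j hj).1 (htw j hj).2.1 (Y j) (hw j hj)
      rw [← hE] at g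
      exact g)
    (by
      intro j hj
      have g0 := hx1 _ (htw j hj).1 (htw j hj).2.1
      refine (mono _ _ fun η hη => ?_).trans (hP.ref _ (htw j hj).1 (htw j hj).2.1 (xs F d (tw L n' j).toNat) (by
        rw [← hE]
        have g1 : 1 * E ≤ A * E := mul_le_mul_of_nonneg_right (by linarith) hEp.le
        linarith))
      rw [Set.mem_ofPred_eq] at hη ⊢
      rw [← hE]
      have g1 : q * E ≤ 1 * E := mul_le_mul_of_nonneg_right hq1 hEp.le
      rw [sub_sub_cancel] at hη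
      linarith)
    (by
      intro j hj
      have g := hP.wall _ (htw j hj).2.2.1 (htw j hj).2.2.2 (z - Y' j) (hw' j hj)
      rw [← hE] at g
      exact g)
    (by
      intro j hj
      have g0 := hx1 _ (htw j hj).2.2.1 (htw j hj).2.2.2
      refine (mono _ _ fun η hη => ?_).trans (hP.ref _ (htw j hj).2.2.1 (htw j hj).2.2.2
        (xs F d (Nw L n' K - tw L n' j).toNat) (by
        rw [← hE]
        have g1 : 1 * E ≤ A * E := mul_le_mul_of_nonneg_right (by linarith) hEp.le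
        linarith))
      rw [Set.mem_ofPred_eq] at hη ⊢
      rw [← hE]
      have g1 : q * E ≤ 1 * E := mul_le_mul_of_nonneg_right hq1 hEp.le
      rw [add_sub_cancel_left] at hη
      linarith)
    (by
      rw [← hE] at hr1
      have g0 : e F d n' h ≤ A * E := by
        have g1 : 2 * E ≤ A * E := mul_le_mul_of_nonneg_right hA2 hEp.le
        have g2 : rm * E ≤ 1 * E := mul_le_mul_of_nonneg_right (by linarith) hEp.le
        linarith
      refine (mono _ _ fun η hη => ?_).trans (hP.ref n' hn1 (by omega) h (by rw [← hE]; exact g0))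
      rw [Set.mem_ofPred_eq] at hη ⊢
      rw [← hE]
      linarith)
    (by
      rw [← hE] at hr2
      have g0 : e F d n' (h - μ) ≤ A * E := by
        have g1 : 2 * E ≤ A * E := mul_le_mul_of_nonneg_right hA2 hEp.le
        have g2 : rm * E ≤ 1 * E := mul_le_mul_of_nonneg_right (by linarith) hEp.le
        linarith
      refine (mono _ _ fun η hη => ?_).trans (hP.ref n' hn1 (by omega) (h - μ) (by rw [← hE]; exact g0))
      rw [Set.mem_ofPred_eq] at hη ⊢
      rw [← hE]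
      linarith)
    (by
      intro D
      have g := hP.piece L hL1 hL D
      rw [← hE] at g
      exact g)
    (by
      intro j hj
      rcases hs j hj with ⟨s1, s2, s3, s4⟩ | ⟨s1, s2, s3, s4⟩
      · rw [← hE] at s3 s4
        exact Or.inl ⟨s1, s2, by linarith, by linarith⟩
      · rw [← hE] at s3 s4
        exact Or.inr ⟨s1, s2, by linarith, by linarith⟩)
    (by
      rw [← hE] at hC2
      have g1 := mul_le_mul_of_nonneg_right hB hEp.le
      have g2 : (0 : ℝ) ≤ (K : ℝ) + 1 := by positivity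
      have g3 : ((K : ℝ) + 1) * (Em F d L - Cr F + (rm + q) * E) ≤ (K + 1) * ((1 + rm + q) * E) :=
        mul_le_mul_of_nonneg_left (by linarith) g2
      nlinarith)
    (by
      have : 0 ≤ B := by
        refine le_trans ?_ hB
        positivity
      positivity) h1 h2
  obtain ⟨i, hi1, hi2, hi⟩ := key
  refine ⟨i, hi1, hi2, hi.trans (max_le ?_ ?_)⟩
  · have g1 := le_Em F d (le_refl L)
    have g2 : 0 ≤ ε * EE F d (2 ^ x) := by
      rw [← hE]
      have : 0 ≤ ε := by linarith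
      positivity
    linarith
  · rw [← hE]
    rw [← hE] at hC3
    have g0 : (0 : ℝ) < (K : ℝ) + 2 := by positivity
    rw [div_le_iff₀ g0]
    have hEm0 : 0 < Em F d L := Em_pos F d L
    have g1 : (c1 + 1) * E ≤ ε * (K + 2) / 8 * E := mul_le_mul_of_nonneg_right (by linarith) hEp.le
    have g2 : ((K : ℝ) + 1) * ((rm + q) * E) ≤ (K + 2) * (ε / 4 * E) := by
      refine mul_le_mul (by linarith) (mul_le_mul_of_nonneg_right (by linarith) hEp.le) (by positivity) g0.le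
    have g3 : ((K : ℝ) + 2) * (q * E) ≤ (K + 2) * (ε / 8 * E) :=
      mul_le_mul_of_nonneg_left (mul_le_mul_of_nonneg_right hqε hEp.le) g0.le
    have g4 : ((K : ℝ) + 1) * (6 * C17 F.co F.b) ≤ (K + 2) * (ε / 8 * E) :=
      mul_le_mul (by linarith) hC3 (by positivity) g0.le
    have g5 : ((K : ℝ) + 1) * (Em F d L - Cr F) ≤ (K + 2) * Em F d L := by
      have g6 : 0 ≤ ((K : ℝ) + 1) * Cr F := by positivity
      nlinarith
    have g7 : 0 ≤ ε * (K + 2) * E := by
      have : 0 ≤ ε := by linarith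
      positivity
    nlinarith

/-- The displacements between two cheap ones. -/
theorem between52 {n : ℕ} (hn : 1 ≤ n) {a b : ℤ} {R : ℝ} (ha : e F d n a ≤ R) (hb : e F d n b ≤ R) {i : ℤ} (h1 : a ≤ i)
    (h2 : i ≤ b) : e F d n i ≤ R := by
  rcases h1.lt_or_eq with h3 | h3
  · have h4 := e_chord F d hn h1 h2
    have h5 : (0 : ℝ) < (b : ℝ) - a := by
      have : (a : ℝ) < b := by exact_mod_cast h3.trans_le h2
      linarith
    have h6 : (0 : ℝ) ≤ (b : ℝ) - i := by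
      have : (i : ℝ) ≤ b := by exact_mod_cast h2
      linarith
    have h7 : (0 : ℝ) ≤ (i : ℝ) - a := by
      have : (a : ℝ) ≤ i := by exact_mod_cast h1
      linarith
    have h8 := mul_le_mul_of_nonneg_left ha h6
    have h9 := mul_le_mul_of_nonneg_left hb h7
    have h10 : ((b : ℝ) - a) * e F d n i ≤ ((b : ℝ) - a) * R := by linarith
    exact le_of_mul_le_mul_left h10 h5
  · rw [← h3]
    exact ha

end Pool.Agent.W_1b8d5d_h52p
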