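import Pool.Agent.W_1b8d5d_h52p.OctFin
import Pool.Agent.W_1b8d5d_p.AllP

/-!
MP_1b8d5d_pr, Track P, D4: one octave, unconditional. (helper52)
-/

namespace Pool.Agent.W_1b8d5d_h52p

open Pool.Agent.W_1b8d5d_p
open Pool.Agent.W_1b8d5d_h4p

variable {F : Fm} {κ K0 c0 C0' a : ℝ} {A : Set Dr}

/-- **ONE OCTAVE**, unconditional. -/
theorem octP_all (hL : LawH F c0 C0') (hD : Dirs F κ K0 A) (ha : 1 ≤ a) : OctP a F κ A := by
  obtain ⟨c, C', hc, -, -, hch⟩ := cheapI_all hL hD ha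
  exact octP_of hL hD (by linarith) hc hch

end Pool.Agent.W_1b8d5d_h52p
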