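import Pool.Agent.W_1b8d5d_h52p.OctP
import Pool.Agent.W_1b8d5d_h14.RecB14

/-!
MP_1b8d5d_pr, Track P, D4: the record trick of helper14 (`rec14`) in the form of the octave. (helper52)
-/

namespace Pool.Agent.W_1b8d5d_h52p

open MeasureTheory Set Pool.Agent.W_1b8d5d_p Pool.Agent.W_1b8d5d_h57p Pool.Agent.W_1b8d5d_h14

variable {F : Fm} {κ K : ℝ} {Ds : Set Dr}

/-- The record trick, uniformly in the direction. -/
theorem recP (h : Dirs F κ K Ds) : RecP F Ds := by
  refine ⟨2 * (m14 F.co + 2 + (|K| + 1)), 2, fun d hd ρ hρ => ?_⟩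
  rcases rec14 (h.adm d hd) hρ with h1 | ⟨m, hm1, hm2, -, hm⟩
  · exact Or.inl h1
  · refine Or.inr ⟨m, hm1, hm2, fun sg u D hsg hu hD hx k Z hk hne => ?_⟩
    have hC : C14 F (d.v + u) ≤ 2 * (m14 F.co + 2 + (|K| + 1)) := by
      unfold C14
      have h2 := abs_add_le d.v u
      have h3 := h.slope d hd
      have h4 := le_abs_self K
      linarith
    rcases hsg with rfl | rfl
    · exact hm (d.v + u) D 1 k _ Z (Or.inl rfl) hD hk (by
        push_cast
        linarith) rfl hne
    · exact hm (d.v + u) D (-1) k _ Z (Or.inr rfl) hD hk (by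
        push_cast
        linarith) rfl hne

end Pool.Agent.W_1b8d5d_h52p
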