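import Pool.Agent.W_1b8d5d_h52p.OctPc
import Pool.Agent.W_1b8d5d_h52p.OctR
import Pool.Agent.W_1b8d5d_h52p.InnP
import Pool.Agent.W_1b8d5d_p.NumX33
import Pool.Agent.W_1b8d5d_p.InW11
import Pool.Agent.W_1b8d5d_p.IfaceP

/-!
MP_1b8d5d_pr, Track P, D4: ONE OCTAVE, from the law, the directions and the cheap intervals. (helper52)
-/

namespace Pool.Agent.W_1b8d5d_h52p

open MeasureTheory Set Pool.Agent.W_1b8d5d_h85 Pool.Agent.W_1b8d5d_p Pool.Agent.W_1b8d5d_h57p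
open Pool.Agent.W_1b8d5d_h4p

variable {F : Fm} {κ K0 : ℝ} {Ds : Set Dr} {A0 A1 : ℝ}

/-- The numbers of helper33. -/
theorem numXP (h : Dirs F κ K0 Ds) (hR : Rate F Ds) (hG : Grow F Ds) (hA0 : 0 < A0) (h01 : A0 < A1) {c0 C' : ℝ} (hc0 : 0 < c0)
    (hch : CheapI A0 F Ds c0 C') (hIN : InW F Ds A0 A0 A1 c0) : NumXP F Ds A0 A1 := by
  obtain ⟨c1, kk, hc1, hn⟩ := Pool.Agent.W_1b8d5d_h33p.numX h hR hG hA0 h01 hc0 hch hIN
  refine ⟨c1 + 1, kk, by linarith, fun k hk => ?_⟩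
  obtain ⟨Ce, hCe, hn⟩ := hn k hk
  refine ⟨Ce, hCe, fun m K hK Bw cw rm Bn hBw hcw hrm hBn => ?_⟩
  have hm : 1 ≤ m := by
    rcases Nat.eq_zero_or_pos m with h1 | h1
    · rw [h1, pow_zero] at hK
      omega
    · exact h1
  obtain ⟨J, x0, hn⟩ := hn m K hm hK (Bw + 1) cw rm Bn (by linarith) hcw.le hrm
  refine ⟨J, max x0 (k + 2), fun d hd y hy k1 hk1 W hdl sg hsg L hL1 hL2 => ?_⟩
  obtain ⟨n', z, hh, mu, cc, Y, Y', N⟩ := hn d hd y (y + m + k1) ((le_max_left _ _).trans hy) ((le_max_right _ _).trans hy)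
    (by omega) W (by rw [mul_assoc]; exact hdl) sg hsg L hL1 hL2
  have hE := EE_pos F d (2 ^ (y + m))
  exact ⟨n', z, hh, mu, cc, Y, Y', N.n1, N.n2, N.deep, N.mu1, N.J1,
    N.path.trans (mul_le_mul_of_nonneg_right (by linarith) hE.le), N.refh, N.refh',
    fun j hj => (mul_le_mul_of_nonneg_right (by linarith) hE.le).trans (N.wall j hj), N.ref0,
    fun j hj => (mul_le_mul_of_nonneg_right (by linarith) hE.le).trans (N.wall' j hj), N.ref0', N.win1, N.win2, N.win3, N.win4,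
    fun h1 => by
      have h2 := N.loc1 h1
      rw [Nat.cast_add, Nat.cast_ofNat] at h2
      exact h2,
    fun h1 => by
      have h2 := N.loc2 h1
      rw [Nat.cast_add, Nat.cast_ofNat] at h2
      exact h2⟩

/-- **ONE OCTAVE**, at the level of the cheap intervals. -/
theorem octP_of {c1 C1 : ℝ} (hL : LawH F c1 C1) (h : Dirs F κ K0 Ds) (hA0 : 0 < A0) {c0 C' : ℝ} (hc0 : 0 < c0)
    (hch : CheapI A0 F Ds c0 C') : OctU (EoP F Ds) (EmP F Ds) (ffP A0 F Ds) (SfP F κ Ds) := by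
  have hR : Rate F Ds := h.rate hL
  have hG : Grow F Ds := h.grow_law hL
  have h01 : A0 < 2 * A0 := by linarith
  have hIN := Pool.Agent.W_1b8d5d_p11.inW_of hL h hR hG hA0 le_rfl h01 hc0 hch
  exact octP h hR hG (mcr_of hL h) (vn_of h) hA0 h01 hc0 hIN
    (innerP hL h hG hA0 h01 (numXP h hR hG hA0 h01 hc0 hch hIN)) (recP h)

end Pool.Agent.W_1b8d5d_h52p
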