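import Pool.Agent.W_1b8d5d_h52p.OctP
import Pool.Agent.W_1b8d5d_h52p.OctPb
import Pool.Agent.W_1b8d5d_h93p.SixP

/-!
MP_1b8d5d_pr, Track P, D4 (proofs row 646, section 4): ONE OCTAVE. On a stretch without soft scale the growth of the bulk in the
octave `x` is at most `2 ^ (x - y)` times the growth between `x` and `y + m` (plus `ε` units), as long as the tube of the octave `y`
has room for the cheapest displacements of the octave `x`. Uniformly in the direction. (helper52)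
-/

namespace Pool.Agent.W_1b8d5d_h52p

open MeasureTheory Set Pool.Agent.W_1b8d5d_p Pool.Agent.W_1b8d5d_h57p
open Pool.Agent.W_1b8d5d_h4p (Sf Sf.mono)

variable {F : Fm} {κ K : ℝ} {Ds : Set Dr} {d : Dr} {A0 A1 : ℝ}

/-- The duration of the tube. -/
theorem op_duration {x y m : ℕ} (hx : 1 ≤ x) (hxy : x + 2 ≤ y) (h1 : 2 ^ x < m) (h2 : m ≤ 2 * 2 ^ x) :
    2 ^ (x - 1) ≤ (m - 1) / 2 ∧ 2 ^ (y - 2) ≤ 2 ^ (y - x - 1) * (m - (m - 1) / 2) + (m - 1) / 2 ∧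
      2 ^ (y - x - 1) * (m - (m - 1) / 2) + (m - 1) / 2 ≤ 2 ^ y := by
  obtain ⟨j, rfl⟩ : ∃ j, y = x + (j + 2) := ⟨y - x - 2, by omega⟩
  obtain ⟨i, rfl⟩ : ∃ i, x = i + 1 := ⟨x - 1, by omega⟩
  rw [show i + 1 + (j + 2) - (i + 1) - 1 = j + 1 by omega, show i + 1 + (j + 2) - 2 = i + j + 1 by omega,
    show i + 1 - 1 = i by omega]
  have e1 : 2 ^ (j + 1) = 2 * 2 ^ j := by rw [pow_succ]; ring
  have e2 : 2 ^ (i + j + 1) = 2 * (2 ^ i * 2 ^ j) := by rw [pow_succ, pow_add]; ring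
  have e3 : 2 ^ (i + 1 + (j + 2)) = 8 * (2 ^ i * 2 ^ j) := by rw [pow_add, pow_add, pow_add]; ring
  have e4 : 2 ^ (i + 1) = 2 * 2 ^ i := by rw [pow_succ]; ring
  rw [e4] at h1 h2
  rw [e1, e2, e3]
  have hj : 1 ≤ 2 ^ j := Nat.one_le_two_pow
  have hi : 1 ≤ 2 ^ i := Nat.one_le_two_pow
  obtain ⟨P, hP⟩ : ∃ P, P = 2 ^ j := ⟨_, rfl⟩
  obtain ⟨Q, hQ⟩ : ∃ Q, Q = 2 ^ i := ⟨_, rfl⟩
  rw [← hP, ← hQ]
  rw [← hP] at hj
  rw [← hQ] at h1 h2 hi
  obtain ⟨t, ht⟩ : ∃ t, t = (m - 1) / 2 := ⟨_, rfl⟩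
  rw [← ht]
  obtain ⟨p, hp⟩ : ∃ p, p = m - t := ⟨_, rfl⟩
  rw [← hp]
  have h3 : Q ≤ t := by omega
  have h4 : t + 1 ≤ 2 * Q := by omega
  have h5 : Q + 1 ≤ p := by omega
  have h6 : p ≤ 2 * Q + 1 := by omega
  refine ⟨h3, ?_, ?_⟩
  · have h7 : 2 * P * Q ≤ 2 * P * p := Nat.mul_le_mul_left _ (by omega)
    nlinarith
  · have h7 : 2 * P * p ≤ 2 * P * (2 * Q + 1) := Nat.mul_le_mul_left _ h6
    have h8 : P * 1 ≤ P * Q := Nat.mul_le_mul_left _ hi
    have h9 : 1 * Q ≤ P * Q := Nat.mul_le_mul_right _ hj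
    nlinarith

/-- The level of softness. -/
theorem op_alpha (αi : ℝ) {B1 B2 ε : ℝ} (hB1 : 1 ≤ B1) (hB2 : 1 ≤ B2) (hε : 0 < ε) :
    ∃ α : ℝ, αi ≤ α ∧ 2 ≤ α ∧ B1 ≤ (2 : ℝ) ^ α ∧ B2 ≤ (2 : ℝ) ^ α ∧ 2 * (2 : ℝ) ^ (-α) ≤ ε / 4 := by
  refine ⟨max αi (max 2 (max (Real.logb 2 B1) (max (Real.logb 2 B2) (Real.logb 2 (8 / ε))))), le_max_left _ _,
    (le_max_left _ _).trans (le_max_right _ _), ?_, ?_, ?_⟩
  · refine (Real.logb_le_iff_le_rpow one_lt_two ?_).1 ?_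
    · linarith
    · exact (le_max_left _ _).trans ((le_max_right _ _).trans (le_max_right _ _))
  · refine (Real.logb_le_iff_le_rpow one_lt_two ?_).1 ?_
    · linarith
    · exact (le_max_left _ _).trans ((le_max_right _ _).trans ((le_max_right _ _).trans (le_max_right _ _)))
  · have h1 : 8 / ε ≤ (2 : ℝ) ^ (max αi (max 2 (max (Real.logb 2 B1) (max (Real.logb 2 B2) (Real.logb 2 (8 / ε)))))) := by
      refine (Real.logb_le_iff_le_rpow one_lt_two ?_).1 ?_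
      · positivity
      · exact (le_max_right _ _).trans ((le_max_right _ _).trans ((le_max_right _ _).trans (le_max_right _ _)))
    rw [Real.rpow_neg two_pos.le]
    have h2 : 0 < 8 / ε := by positivity
    have h3 := inv_anti₀ h2 h1
    rw [inv_div] at h3
    linarith

/-- The displacements next to the line of the tube are inside both inner edges. -/
theorem op_inside {R1 L1 δ s C' Cx c3 : ℝ} {m : ℕ} (hδ : 0 < δ) (hCx : 0 ≤ Cx) (hc3 : 0 < c3) (hCx' : Cx + 4 / c3 ≤ C')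
    (hs1 : -(L1 - C' * δ) ≤ s) (hs2 : s ≤ R1 - C' * δ) (hm : c3 ≤ δ * m) {r : ℝ} (hr : |r - s * m| ≤ 1) :
    -(L1 - Cx * δ) * m ≤ r ∧ r ≤ (R1 - Cx * δ) * m := by
  have h1 : 4 ≤ (C' - Cx) * (δ * m) := by
    have h2 : 4 / c3 * c3 ≤ (C' - Cx) * (δ * m) := mul_le_mul (by linarith) hm hc3.le (by
      have : 0 < 4 / c3 := by positivity
      linarith)
    rwa [div_mul_cancel₀ _ hc3.ne'] at h2
  rw [abs_le] at hr
  have hm0 : (0 : ℝ) ≤ m := Nat.cast_nonneg m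
  have h3 := mul_le_mul_of_nonneg_right hs1 hm0
  have h4 := mul_le_mul_of_nonneg_right hs2 hm0
  constructor <;> nlinarith

/-- The price of the expensive side. -/
theorem FW.price {k z0 z1 : ℕ} (W : FW F d A0 A1 k z0 z1) (h : Dirs F κ K Ds) (hd : d ∈ Ds) {τ : ℝ} (hτ : τ = 1 ∨ τ = -1)
    (hA0 : 0 < A0) (hA1 : 0 < A1) {s D C' C2 : ℝ} (hC2 : 0 ≤ C2) {N : ℕ}
    (hs : τ * s = vs A0 F d τ (2 ^ z1) - C' * dl A0 F d z0 z1) (h1 : 2 ^ (z0 + k) ≤ N) (h2 : N ≤ 2 ^ z1)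
    (hD : (C' + 1 + 2 * C2) * dl A0 F d z0 z1 * N ≤ D - 3) {y : ℤ} (hy : |(y : ℝ) - ((d.v + s) * N + τ * D)| ≤ 3) :
    A1 * (1 + C2) * EE F d N ≤ e F d N y := by
  have hl := W.len4
  obtain ⟨δ, hδ⟩ : ∃ δ, δ = dl A0 F d z0 z1 := ⟨_, rfl⟩
  have hδp : 0 < δ := by rw [hδ]; exact W.dl_pos h hd hA0
  have hgap := op_gap h hd hτ hA0.le (show z0 ≤ z1 by omega)
  rw [← hδ] at hs hD hgap
  have hN1 : 1 ≤ N := le_trans Nat.one_le_two_pow h1
  have hN : (0 : ℝ) < N := by exact_mod_cast hN1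
  have hττ : τ * τ = 1 := by rcases hτ with rfl | rfl <;> norm_num
  obtain ⟨x, hx⟩ : ∃ x, x = τ * ((y : ℝ) / N - d.v) := ⟨_, rfl⟩
  have hxN : x * N = τ * (y - d.v * N) := by
    rw [hx]
    field_simp
  have hyt : D - 3 ≤ τ * (y - (d.v + s) * N) := by
    have e1 : τ * (y - (d.v + s) * N) = τ * (y - ((d.v + s) * N + τ * D)) + τ * τ * D := by ring
    rw [e1, hττ, one_mul]
    have h3 : |τ * (y - ((d.v + s) * N + τ * D))| ≤ 3 := by
      rw [abs_mul]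
      rcases hτ with rfl | rfl
      · rw [abs_one, one_mul]
        exact hy
      · rw [abs_neg, abs_one, one_mul]
        exact hy
    linarith [neg_le_of_abs_le h3]
  have hx1 : (vs A0 F d τ (2 ^ z0) + 2 * C2 * δ) * N ≤ x * N := by
    rw [hxN]
    have e1 : τ * (y - d.v * N) = τ * (y - (d.v + s) * N) + τ * s * N := by ring
    rw [e1, hs]
    have h3 : (vs A0 F d τ (2 ^ z0) - vs A0 F d τ (2 ^ z1)) * N ≤ δ * N := mul_le_mul_of_nonneg_right hgap hN.le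
    linarith
  have hx2 : vs A0 F d τ (2 ^ z0) + 2 * C2 * δ ≤ x := le_of_mul_le_mul_right hx1 hN
  have h3 := W.far h hd hτ hA0 (r := x - vs A0 F d τ (2 ^ z0)) (by
    have : 0 ≤ 2 * C2 * δ := by positivity
    linarith)
  rw [← hδ, show vs A0 F d τ (2 ^ z0) + (x - vs A0 F d τ (2 ^ z0)) = x by ring] at h3
  have h4 := W.lev_hi hA1 h1 h2
  have h5 : 1 + C2 ≤ 1 + (x - vs A0 F d τ (2 ^ z0)) / (2 * δ) := by
    have : C2 ≤ (x - vs A0 F d τ (2 ^ z0)) / (2 * δ) := by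
      rw [le_div_iff₀ (by positivity)]
      linarith
    linarith
  have h6 : A1 * EE F d N / N * (1 + C2) ≤ J F d (τ * x) := by
    refine le_trans ?_ h3
    have hEN := EE_pos F d N
    exact mul_le_mul h4 h5 (by linarith) (le_trans (by positivity) h4)
  have h7 := e_lower F d hN1 y
  have e2 : (y : ℝ) / N - d.v = τ * x := by
    rw [hx, ← mul_assoc, hττ, one_mul]
  rw [e2] at h7
  refine le_trans ?_ h7
  have h8 := mul_le_mul_of_nonneg_left h6 hN.le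
  have e3 : (N : ℝ) * (A1 * EE F d N / N * (1 + C2)) = A1 * (1 + C2) * EE F d N := by
    field_simp
  rwa [e3] at h8

/-- **ONE OCTAVE.** -/
theorem octP (h : Dirs F κ K Ds) (hR : Rate F Ds) (hG : Grow F Ds) (hmc : MCR F Ds) (hVN : VN F Ds) (hA0 : 0 < A0)
    (h01 : A0 < A1) {c0 : ℝ} (hc0 : 0 < c0) (hIN : InW F Ds A0 A0 A1 c0) (hInner : InnerEP F κ Ds A0) (hRec : RecP F Ds) :
    OctU (EoP F Ds) (EmP F Ds) (ffP A0 F Ds) (SfP F κ Ds) := by
  have hA1 : 0 < A1 := hA0.trans h01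
  obtain ⟨Ci, c1, c', n1, hCi, hc1, hc', hin⟩ := op_in h hR hA0 h01 hc0 hIN
  obtain ⟨Ce, Km, ki, k1i, hCe, hinner⟩ := hInner
  obtain ⟨Kx, ρ0, hrec⟩ := hRec
  obtain ⟨R, nT, C, b0, s0, hR1, hnT, hC, hb0, hs0, htube⟩ := tube_line1 h hmc hVN (ε := 1 / 4) (c := c1) (by norm_num)
    (by norm_num) hc1
  obtain ⟨kR, hkR⟩ : ∃ kR, 2 * R + 1 ≤ 2 ^ kR := ⟨2 * R + 1, Nat.lt_two_pow_self.le⟩
  obtain ⟨kj, hkj⟩ := exists_lev hA0 hA1
  obtain ⟨kc, hkc⟩ := pow_unbounded_of_one_lt c0 (one_lt_two : (1 : ℝ) < 2)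
  obtain ⟨k0, hk0⟩ : ∃ k0, k0 = max ki (max kj kc) := ⟨_, rfl⟩
  have hki : ki ≤ k0 := by rw [hk0]; exact le_max_left _ _
  have hkj0 : kj ≤ k0 := by rw [hk0]; exact (le_max_left _ _).trans (le_max_right _ _)
  have hkc0 : kc ≤ k0 := by rw [hk0]; exact (le_max_right _ _).trans (le_max_right _ _)
  have hc02 : c0 ≤ 2 ^ k0 := hkc.le.trans (pow_le_pow_right₀ one_le_two hkc0)
  obtain ⟨k1, hk1⟩ : ∃ k1, k1 = max k1i (kR + 3) := ⟨_, rfl⟩
  have hk1i : k1i ≤ k1 := by rw [hk1]; exact le_max_left _ _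
  have hk1R : kR + 3 ≤ k1 := by rw [hk1]; exact le_max_right _ _
  obtain ⟨c3, hc3⟩ : ∃ c3, c3 = cJ F A0 A1 * Cr F := ⟨_, rfl⟩
  have hc3p : 0 < c3 := by
    rw [hc3]
    exact mul_pos (cJ_pos F h01) (Cr_pos F)
  obtain ⟨C', hC'⟩ : ∃ C' : ℝ, C' = Ce + Ci + 4 / c3 := ⟨_, rfl⟩
  have h4c : 0 < 4 / c3 := by positivity
  have hC'0 : 0 < C' := by rw [hC']; linarith
  obtain ⟨C2, hC2⟩ : ∃ C2 : ℝ, C2 = C / A1 := ⟨_, rfl⟩
  have hC2p : 0 < C2 := by rw [hC2]; positivity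
  obtain ⟨Rr, hRr⟩ : ∃ Rr : ℝ, Rr = ((2 * R + 1 : ℕ) : ℝ) := ⟨_, rfl⟩
  have hRr1 : 1 ≤ Rr := by
    rw [hRr]
    exact_mod_cast (show 1 ≤ 2 * R + 1 by omega)
  obtain ⟨M0, hM0⟩ : ∃ M0 : ℝ, M0 = Rr * (C' + 1 + 2 * C2) := ⟨_, rfl⟩
  have hM0p : 0 < M0 := by rw [hM0]; positivity
  obtain ⟨C0, hC0⟩ : ∃ C0 : ℝ, C0 = 1 + 1 / c' + 8 * C' + 6 * (2 * M0 + (6 + |Kx|) / c3) := ⟨_, rfl⟩
  have hx1 : 0 < 1 / c' := by positivity
  have hx2 : 0 < (6 + |Kx|) / c3 := by positivity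
  have hC0a : 1 ≤ C0 := by rw [hC0]; linarith
  have hC0b : 1 / c' ≤ C0 := by rw [hC0]; linarith
  have hC0c : 8 * C' ≤ C0 := by rw [hC0]; linarith
  have hC0d : 6 * (2 * M0 + (6 + |Kx|) / c3) ≤ C0 := by rw [hC0]; linarith
  refine ⟨C0, 2 * Km, k0 + 2, k1, 2, by linarith, fun ε m hε hε1 hm => ?_⟩
  obtain ⟨αi, xi, hI⟩ := hinner (ε / 2) m (by linarith) (by linarith) (by linarith)
  obtain ⟨α, hα1, hα2, hα3, hα4, hα5⟩ := op_alpha αi (B1 := c1 * Rr) (B2 := C * Rr) (ε := ε)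
    (one_le_mul_of_one_le_of_one_le hc1 hRr1) (one_le_mul_of_one_le_of_one_le hC hRr1) hε
  obtain ⟨nv, hnv, hv⟩ := h.vA_small hR hA0 (ε := min (s0 / 2) (1 / 2)) (lt_min (by linarith) (by norm_num))
  obtain ⟨nr, hnr, hrate⟩ := hR.one (ε := b0 / Rr) (by positivity)
  obtain ⟨ng, hng⟩ := hG (4 * Cr F / ε)
  refine ⟨α, max xi (max n1 (max nT (max nv (max nr (max ng (max ρ0 1)))))), fun d a b ha hnS hslow x y hx hy hb hf => ?_⟩
  obtain ⟨d, hd⟩ := d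
  have ha1 : xi ≤ a := (le_max_left _ _).trans ha
  have ha' : max n1 (max nT (max nv (max nr (max ng (max ρ0 1))))) ≤ a := (le_max_right _ _).trans ha
  have ha2 : n1 ≤ a := (le_max_left _ _).trans ha'
  have ha'2 : max nT (max nv (max nr (max ng (max ρ0 1)))) ≤ a := (le_max_right _ _).trans ha'
  have ha3 : nT ≤ a := (le_max_left _ _).trans ha'2
  have ha'3 : max nv (max nr (max ng (max ρ0 1))) ≤ a := (le_max_right _ _).trans ha'2
  have ha4 : nv ≤ a := (le_max_left _ _).trans ha'3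
  have ha'4 : max nr (max ng (max ρ0 1)) ≤ a := (le_max_right _ _).trans ha'3
  have ha5 : nr ≤ a := (le_max_left _ _).trans ha'4
  have ha'5 : max ng (max ρ0 1) ≤ a := (le_max_right _ _).trans ha'4
  have ha6 : ng ≤ a := (le_max_left _ _).trans ha'5
  have ha'6 : max ρ0 1 ≤ a := (le_max_right _ _).trans ha'5
  have ha7 : ρ0 ≤ a := (le_max_left _ _).trans ha'6
  have ha8 : 1 ≤ a := (le_max_right _ _).trans ha'6
  have hfy := hf y (by omega) le_rfl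
  clear hf
  show Em F d (2 ^ (x + 1)) - Em F d (2 ^ x) ≤
    2 * (1 / 2 : ℝ) ^ (y - x) * (Em F d (2 ^ (y + m)) - Em F d (2 ^ x) + ε * EE F d (2 ^ (y + m)))
  have hfy' : C0 * (ff A0 F d (y + m + k1) - ff A0 F d (y - (k0 + 2))) ≤ (1 / 2 : ℝ) ^ (y - x) := hfy
  have hnS' : ∀ z, a ≤ z → z < b → ¬ Sf F κ d z α := hnS
  have hslow' : SlowU (fun x => EE F d (2 ^ x)) a b := hslow
  clear hfy hnS hslow
  rw [show y - (k0 + 2) = y - 2 - k0 by omega] at hfy'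
  -- the window
  obtain ⟨z0, hz0⟩ : ∃ z0, z0 = y - 2 - k0 := ⟨_, rfl⟩
  obtain ⟨z1, hz1⟩ : ∃ z1, z1 = y + m + k1 := ⟨_, rfl⟩
  have W : FW F d A0 A1 k0 z0 z1 := fw_of hslow' (hkj k0 hkj0) (by omega) (by omega) (by omega) (by omega)
  obtain ⟨U, hU⟩ : ∃ U : ℝ, U = ff A0 F d z1 - ff A0 F d z0 := ⟨_, rfl⟩
  rw [← hz0, ← hz1, ← hU] at hfy'
  have hU0 : 0 ≤ U := by
    have h1 : ff A0 F d z0 ≤ ff A0 F d z1 := ff_mono h hA0 hd (show z0 ≤ z1 by omega)
    rw [hU]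
    linarith
  have hhalf : ((1 : ℝ) / 2) ^ (y - x) ≤ 1 / 4 := by
    have h1 : ((1 : ℝ) / 2) ^ (y - x) ≤ (1 / 2) ^ 2 := pow_le_pow_of_le_one (by norm_num) (by norm_num) (by omega)
    linarith
  have hU1 : U ≤ 1 / 4 := (le_mul_of_one_le_left hU0 hC0a).trans (hfy'.trans hhalf)
  obtain ⟨V1, hV1⟩ : ∃ V1, V1 = vA A0 F d (2 ^ z1) := ⟨_, rfl⟩
  obtain ⟨δ, hδ⟩ : ∃ δ, δ = dl A0 F d z0 z1 := ⟨_, rfl⟩
  have hV1p : 0 < V1 := by rw [hV1]; exact h.vA_pos hd hA0 Nat.one_le_two_pow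
  have hδp : 0 < δ := by rw [hδ]; exact W.dl_pos h hd hA0
  have hδU : δ ≤ U * V1 := by
    rw [hδ, hU, hV1]
    refine op_ratio h hd hA0 (by omega) ?_
    rw [← hU]
    linarith
  have hδC : C0 * δ ≤ 1 / 4 * V1 := by
    have h1 : C0 * δ ≤ C0 * (U * V1) := mul_le_mul_of_nonneg_left hδU (by linarith)
    have h2 : C0 * U * V1 ≤ 1 / 4 * V1 := mul_le_mul_of_nonneg_right (hfy'.trans hhalf) hV1p.le
    linarith
  have hδc' : δ ≤ c' * V1 := by
    have h1 : 1 / c' * δ ≤ 1 / 4 * V1 := (mul_le_mul_of_nonneg_right hC0b hδp.le).trans hδC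
    rw [div_mul_eq_mul_div, one_mul, div_le_iff₀ hc'] at h1
    nlinarith
  have hδC' : C' * δ ≤ 1 / 32 * V1 := by
    have h1 : 8 * C' * δ ≤ C0 * δ := mul_le_mul_of_nonneg_right hC0c hδp.le
    linarith
  have hthick : ∀ n : ℕ, 2 ^ (y - 2) ≤ n → n ≤ 2 ^ (z1 - 3) → c3 ≤ δ * n := by
    intro n h1 h2
    have h3 := W.thick h hd hA0 h01 (n := n) (by
      rw [show z0 + k0 = y - 2 by omega]
      exact h1) h2
    rw [← hδ] at h3
    rw [hc3]
    exact (mul_le_mul_of_nonneg_left (Cr_le_EE F d n) (cJ_pos F h01).le).trans h3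
  obtain ⟨R1, hR1'⟩ : ∃ R1, R1 = vr A0 F d (2 ^ z1) := ⟨_, rfl⟩
  obtain ⟨L1, hL1'⟩ : ∃ L1, L1 = vl A0 F d (2 ^ z1) := ⟨_, rfl⟩
  have hR1n : 0 ≤ R1 := by rw [hR1']; exact h.vr_nonneg hd hA0.le _
  have hL1n : 0 ≤ L1 := by rw [hL1']; exact h.vl_nonneg hd hA0.le _
  have hRL : R1 + L1 = V1 := by rw [hR1', hL1', hV1]; rfl
  -- powers of two
  have epow : ((1 : ℝ) / 2) ^ (y - x) * 2 ^ y = 2 ^ x := by
    have h1 : (2 : ℝ) ^ y = 2 ^ (y - x) * 2 ^ x := by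
      rw [← pow_add]
      congr 1
      omega
    rw [h1, ← mul_assoc, ← mul_pow]
    norm_num
  have h2y : (0 : ℝ) < 2 ^ y := by positivity
  have h2x : (0 : ℝ) < 2 ^ x := by positivity
  have hδ2y : C0 * (δ * 2 ^ y) ≤ V1 * 2 ^ x := by
    have h1 : C0 * (δ * 2 ^ y) ≤ C0 * (U * V1 * 2 ^ y) :=
      mul_le_mul_of_nonneg_left (mul_le_mul_of_nonneg_right hδU h2y.le) (by linarith)
    have h2 : V1 * (C0 * U * 2 ^ y) ≤ V1 * 2 ^ x := by
      refine mul_le_mul_of_nonneg_left ?_ hV1p.le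
      have h3 := mul_le_mul_of_nonneg_right hfy' h2y.le
      rwa [epow] at h3
    linarith
  have hwy : c3 ≤ δ * 2 ^ y := by
    have h1 := hthick (2 ^ y) (Nat.pow_le_pow_right (by norm_num) (by omega)) (Nat.pow_le_pow_right (by norm_num) (by omega))
    push_cast at h1
    exact h1
  -- the width of the tube
  obtain ⟨D, hD⟩ : ∃ D : ℝ, D = M0 * (δ * 2 ^ y) + 3 := ⟨_, rfl⟩
  have hDp : 0 < D := by rw [hD]; positivity
  have hDx : 2 * D + Kx ≤ 3 / 16 * (V1 * 2 ^ x) := by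
    have h1 : 6 + |Kx| ≤ (6 + |Kx|) / c3 * (δ * 2 ^ y) := by
      rw [div_mul_eq_mul_div, le_div_iff₀ hc3p]
      exact mul_le_mul_of_nonneg_left hwy (by positivity)
    have h2 : 6 * (2 * M0 + (6 + |Kx|) / c3) * (δ * 2 ^ y) ≤ C0 * (δ * 2 ^ y) :=
      mul_le_mul_of_nonneg_right hC0d (by positivity)
    have h3 := le_abs_self Kx
    have h4 : 0 < V1 * 2 ^ x := by positivity
    rw [hD]
    linarith
  have hRHS : 0 ≤ Em F d (2 ^ (y + m)) - Em F d (2 ^ x) + ε * EE F d (2 ^ (y + m)) := by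
    have h1 := Em_mono F d (Nat.pow_le_pow_right (n := 2) (by norm_num) (show x ≤ y + m by omega))
    have h2 : 0 ≤ ε * EE F d (2 ^ (y + m)) := mul_nonneg hε.le (EE_pos F d _).le
    linarith
  have hhp : (0 : ℝ) < (1 / 2) ^ (y - x) := by positivity
  rcases hrec d hd (2 ^ x) (ha7.trans ((show a ≤ x by omega).trans Nat.lt_two_pow_self.le)) with hcase | ⟨m0, hm1, hm2, hall⟩
  · rw [pow_succ', hcase, sub_self]
    positivity
  · obtain ⟨ht0, hTlo, hThi⟩ := op_duration (show 1 ≤ x by omega) hy hm1 hm2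
    obtain ⟨t0, ht0'⟩ : ∃ t0, t0 = (m0 - 1) / 2 := ⟨_, rfl⟩
    obtain ⟨Kk, hKk⟩ : ∃ Kk, Kk = 2 ^ (y - x - 1) := ⟨_, rfl⟩
    obtain ⟨T, hT⟩ : ∃ T, T = Kk * (m0 - (m0 - 1) / 2) + (m0 - 1) / 2 := ⟨_, rfl⟩
    rw [← ht0'] at ht0
    rw [← hKk, ← hT] at hTlo hThi
    -- the side of the tube
    obtain ⟨τ, s, hτ, hs, hs1, hs2, hcross⟩ : ∃ τ s : ℝ, (τ = 1 ∨ τ = -1) ∧ τ * s = vs A0 F d τ (2 ^ z1) - C' * δ ∧
        -(L1 - C' * δ) ≤ s ∧ s ≤ R1 - C' * δ ∧ 2 * D + Kx ≤ τ * ((d.v + s) * t0 - xs F d t0) := by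
      have ht0r : (2 : ℝ) ^ x ≤ 2 * t0 := by
        have h1 : 2 ^ x ≤ 2 * t0 := by
          have h2 : 2 ^ x = 2 * 2 ^ (x - 1) := by
            rw [← pow_succ']
            congr 1
            omega
          omega
        exact_mod_cast h1
      have h3 : 3 / 16 * (V1 * 2 ^ x) ≤ (V1 - 2 * C' * δ) * t0 / 2 := by
        have h4 : 3 / 16 * (V1 * 2 ^ x) ≤ 3 / 16 * (V1 * (2 * t0)) :=
          mul_le_mul_of_nonneg_left (mul_le_mul_of_nonneg_left ht0r hV1p.le) (by norm_num)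
        have h5 : 3 / 4 * V1 * t0 ≤ (V1 - 2 * C' * δ) * t0 := by
          refine mul_le_mul_of_nonneg_right ?_ (Nat.cast_nonneg _)
          linarith
        linarith
      rcases le_total (xs F d t0 - d.v * t0 : ℝ) (((R1 - C' * δ) + -(L1 - C' * δ)) / 2 * t0) with h1 | h1
      · refine ⟨1, R1 - C' * δ, Or.inl rfl, ?_, ?_, le_rfl, ?_⟩
        · rw [vs_one, one_mul, hR1']
        · linarith
        · have h6 := hDx.trans h3
          rw [← hRL] at h6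
          linarith
      · refine ⟨-1, -(L1 - C' * δ), Or.inr rfl, ?_, le_rfl, ?_, ?_⟩
        · rw [vs_neg, hL1']
          ring
        · linarith
        · have h6 := hDx.trans h3
          rw [← hRL] at h6
          linarith
    have hT1 : 1 ≤ T := le_trans Nat.one_le_two_pow hTlo
    have hTpos : (0 : ℝ) < T := by exact_mod_cast hT1
    have hTy : (T : ℝ) ≤ 2 ^ y := by exact_mod_cast hThi
    have haT : a ≤ T := by
      have h1 : a < 2 ^ a := Nat.lt_two_pow_self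
      have h2 : 2 ^ a ≤ 2 ^ (y - 2) := Nat.pow_le_pow_right (by norm_num) (by omega)
      omega
    obtain ⟨N', hN'⟩ : ∃ N', N' = (2 * R + 1) * T := ⟨_, rfl⟩
    have hTN' : T ≤ N' := by rw [hN']; exact Nat.le_mul_of_pos_left T (by omega)
    have hN'z : N' ≤ 2 ^ (z1 - 3) := by
      have h1 : N' ≤ 2 ^ kR * 2 ^ y := by rw [hN']; exact Nat.mul_le_mul hkR hThi
      rw [← pow_add] at h1
      exact h1.trans (Nat.pow_le_pow_right (by norm_num) (by omega))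
    have hN'r : (N' : ℝ) = Rr * T := by rw [hN', hRr]; push_cast; ring
    obtain ⟨B, hB⟩ : ∃ B, B = EE F d N' := ⟨_, rfl⟩
    have hBp : 0 < B := by rw [hB]; exact EE_pos F d _
    have hBm : B ≤ Rr * EE F d (2 ^ (y + m)) := by
      have h1 : N' ≤ (2 * R + 1) * 2 ^ (y + m) := by
        rw [hN']
        exact Nat.mul_le_mul_left _ (hThi.trans (Nat.pow_le_pow_right (by norm_num) (by omega)))
      have h2 := EE_mul F d (2 ^ (y + m)) (k := 2 * R + 1) (by omega)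
      rw [hB, hRr]
      exact (EE_mono F d h1).trans h2
    have hsV : |s| ≤ 2 * V1 := by
      have h0 : 0 ≤ C' * δ := by positivity
      rw [abs_le]
      constructor <;> linarith
    have hV1s : V1 ≤ min (s0 / 2) (1 / 2) := by
      rw [hV1]
      refine hv d hd (2 ^ z1) ?_
      have h1 : z1 < 2 ^ z1 := Nat.lt_two_pow_self
      omega
    have hs0' : |s| ≤ s0 := by linarith [hV1s.trans (min_le_left _ _)]
    have hs1' : |s| ≤ 1 := by linarith [hV1s.trans (min_le_right _ _)]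
    have hinside : ∀ (n : ℕ) (i : ℤ), 2 ^ (y - 2) ≤ n → n ≤ 2 ^ (z1 - 3) → |(i : ℝ) - (d.v + s) * n| ≤ 1 →
        ∀ Cx : ℝ, 0 ≤ Cx → Cx + 4 / c3 ≤ C' →
          -(L1 - Cx * δ) * n ≤ i - d.v * n ∧ i - d.v * n ≤ (R1 - Cx * δ) * n := by
      intro n i h1 h2 h3 Cx hCx hCx'
      refine op_inside hδp hCx hc3p hCx' hs1 hs2 (hthick n h1 h2) ?_
      have e1 : (i : ℝ) - d.v * n - s * n = i - (d.v + s) * n := by ring
      rw [e1]
      exact h3
    have hcheap : ∀ n : ℕ, T ≤ n → n ≤ N' → ∀ i : ℤ, |(i : ℝ) - (d.v + s) * n| ≤ 1 → e F d n i ≤ c1 * B := by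
      intro n h1 h2 i h3
      obtain ⟨h4, h5⟩ := hinside n i (hTlo.trans h1) (h2.trans hN'z) h3 Ci hCi (by rw [hC']; linarith)
      rw [hL1', hδ] at h4
      rw [hR1', hδ] at h5
      have h6 := hin d hd k0 z0 z1 W hc02 (by rw [← hδ, ← hV1]; exact hδc') n (by omega) (by
        rw [show z0 + k0 = y - 2 by omega]
        exact hTlo.trans h1) (h2.trans hN'z) i h4 h5
      refine h6.trans (mul_le_mul_of_nonneg_left ?_ (by linarith))
      rw [hB]
      exact EE_mono F d h2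
    have hprice : ∀ i : ℤ, |(i : ℝ) - ((d.v + s) * (N' : ℕ) + τ * D)| ≤ 3 → C * B < e F d N' i := by
      intro i h1
      have h2 := W.price h hd hτ hA0 hA1 hC2p.le (N := N') (C' := C') (s := s) (D := D) (by rw [← hδ]; exact hs) (by
        rw [show z0 + k0 = y - 2 by omega]
        exact hTlo.trans hTN') (hN'z.trans (Nat.pow_le_pow_right (by norm_num) (by omega))) (by
        rw [← hδ, hN'r, hD, hM0]
        have h3 : (C' + 1 + 2 * C2) * δ * Rr * T ≤ (C' + 1 + 2 * C2) * δ * Rr * 2 ^ y :=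
          mul_le_mul_of_nonneg_left hTy (by positivity)
        linarith) (y := i) h1
      rw [← hB] at h2
      have h3 : A1 * (1 + C2) = A1 + C := by
        rw [hC2]
        field_simp
      rw [h3] at h2
      have h4 : 0 < A1 * B := by positivity
      linarith
    have hBb : B ≤ b0 * T := by
      have h1 := hrate d hd N' (by omega)
      rw [hB]
      refine h1.trans (le_of_eq ?_)
      rw [hN'r]
      field_simp
    obtain ⟨z, hz⟩ : ∃ z : ℤ, z = ⌊(d.v + s) * (T : ℝ)⌋ := ⟨_, rfl⟩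
    have hzc : |(z : ℝ) - (d.v + s) * T| ≤ 1 := by
      have hz1' : (z : ℝ) ≤ (d.v + s) * T := by rw [hz]; exact Int.floor_le _
      have hz2' : (d.v + s) * T < z + 1 := by rw [hz]; exact Int.lt_floor_add_one _
      rw [abs_le]
      constructor <;> linarith
    obtain ⟨-, q2, q3, q4⟩ := htube d hd T (by omega) s D B τ hs0' hDp hτ (by rw [hB]; exact EE_mono F d hTN') hBb
      (by rw [← hN']; exact hcheap) (by rw [← hN']; exact hprice) z hzc
    have hgrow := hall τ s D hτ hs1' hDp (by rw [← ht0']; exact hcross) Kk z (by rw [hKk]; exact Nat.one_le_two_pow) (by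
      rw [← hT]
      exact q2)
    rw [← hT] at hgrow
    have he := hcheap T le_rfl hTN' z hzc
    have hEy := EE_pos F d (2 ^ (y + m))
    have hmean := Pool.Agent.W_1b8d5d_h93p.sixP (h.adm d hd) (hnS' (y + m) (by omega) (by omega)) hα2 hT1
      (hThi.trans (Nat.pow_le_pow_right (by norm_num) (by omega))) q2
      (he.trans (by
        have h1 : c1 * B ≤ c1 * (Rr * EE F d (2 ^ (y + m))) := mul_le_mul_of_nonneg_left hBm (by linarith)
        have h2 : c1 * Rr * EE F d (2 ^ (y + m)) ≤ (2 : ℝ) ^ α * EE F d (2 ^ (y + m)) :=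
          mul_le_mul_of_nonneg_right hα3 hEy.le
        linarith))
      (q3.trans (by
        have h1 : C * B ≤ C * (Rr * EE F d (2 ^ (y + m))) := mul_le_mul_of_nonneg_left hBm (by linarith)
        have h2 : C * Rr * EE F d (2 ^ (y + m)) ≤ (2 : ℝ) ^ α * EE F d (2 ^ (y + m)) :=
          mul_le_mul_of_nonneg_right hα4 hEy.le
        linarith)) (by linarith)
    obtain ⟨g1, g2⟩ := hinside T z hTlo (hTN'.trans hN'z) hzc Ce hCe (by rw [hC']; linarith)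
    have hinn := hI d hd a b ha1 (fun w hw1 hw2 hw3 => hnS' w hw1 hw2 (hw3.mono hα1)) hslow' y (by omega) (by omega) (by
      have h1 : ff A0 F d z0 ≤ ff A0 F d (y - 2 - ki) := ff_mono h hA0 hd (by omega)
      have h2 : ff A0 F d (y + m + k1i) ≤ ff A0 F d z1 := ff_mono h hA0 hd (by omega)
      linarith) T hTlo hThi z
    have hdle : dl A0 F d (y - 2 - ki) (y + m + k1i) ≤ δ := by
      rw [hδ]
      unfold dl
      have h1 := op_vA_dec h hd hA0.le (show z0 ≤ y - 2 - ki by omega)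
      have h2 := op_vA_dec h hd hA0.le (show y + m + k1i ≤ z1 by omega)
      linarith
    have hCed : Ce * dl A0 F d (y - 2 - ki) (y + m + k1i) ≤ Ce * δ := mul_le_mul_of_nonneg_left hdle hCe
    have hRle : R1 ≤ vr A0 F d (2 ^ (y + m + k1i)) := by
      have h1 := op_vs_dec (sg := 1) h hd (Or.inl rfl) hA0.le (show y + m + k1i ≤ z1 by omega)
      rw [vs_one, vs_one] at h1
      rw [hR1']
      exact h1
    have hLle : L1 ≤ vl A0 F d (2 ^ (y + m + k1i)) := by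
      have h1 := op_vs_dec (sg := -1) h hd (Or.inr rfl) hA0.le (show y + m + k1i ≤ z1 by omega)
      rw [vs_neg, vs_neg] at h1
      rw [hL1']
      exact h1
    have hinn' := hinn (by
      refine le_trans ?_ g1
      refine mul_le_mul_of_nonneg_right ?_ hTpos.le
      linarith) (by
      refine g2.trans (mul_le_mul_of_nonneg_right ?_ hTpos.le)
      linarith)
    have hEmT : Em F d T ≤ Em F d (2 ^ (y + m)) :=
      Em_mono F d (hThi.trans (Nat.pow_le_pow_right (by norm_num) (by omega)))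
    have hECr : Cr F ≤ ε / 4 * EE F d (2 ^ (y + m)) := by
      have h1 := hng d hd (2 ^ (y + m)) (by
        have h2 : y + m < 2 ^ (y + m) := Nat.lt_two_pow_self
        omega)
      rw [div_le_iff₀ hε] at h1
      linarith
    have hα6 : 2 * ((2 : ℝ) ^ (-α) * EE F d (2 ^ (y + m))) ≤ ε / 4 * EE F d (2 ^ (y + m)) := by
      have h1 := mul_le_mul_of_nonneg_right hα5 hEy.le
      linarith
    have hmono1 : Em F d (2 ^ x) ≤ Em F d (2 ^ (x + 1)) := Em_mono F d (Nat.pow_le_pow_right (by norm_num) (by omega))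
    rw [← pow_succ'] at hgrow
    have hKr : (Kk : ℝ) * ((1 / 2) ^ (y - x)) = 1 / 2 := by
      have h1 : (2 : ℝ) ^ (y - x) * (1 / 2) ^ (y - x) = 1 := by
        rw [← mul_pow]
        norm_num
      have h2 : (2 : ℝ) ^ (y - x) = 2 * 2 ^ (y - x - 1) := by
        rw [← pow_succ']
        congr 1
        omega
      rw [h2] at h1
      rw [hKk]
      push_cast
      linarith
    have hfin : Kk * (Em F d (2 ^ (x + 1)) - Em F d (2 ^ x)) ≤
        Em F d (2 ^ (y + m)) - Em F d (2 ^ x) + ε * EE F d (2 ^ (y + m)) := by linarith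
    have h1 := mul_le_mul_of_nonneg_left hfin hhp.le
    have h2 : (1 / 2) ^ (y - x) * (Kk * (Em F d (2 ^ (x + 1)) - Em F d (2 ^ x))) =
        1 / 2 * (Em F d (2 ^ (x + 1)) - Em F d (2 ^ x)) := by
      rw [← mul_assoc, mul_comm (((1 : ℝ) / 2) ^ (y - x)) (Kk : ℝ), hKr]
    linarith

end Pool.Agent.W_1b8d5d_h52p
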